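import Pool.Agent.Lib_helper39.TWR.Five
import Pool.Agent.Lib_helper39.TWQ.Tup

/-!
MP_df6280_nt. Power saving with five edges: the classes of primes.
-/

set_option autoImplicit false

namespace Pool.Agent.TWR

open Pool.Agent.TWP Pool.Agent.TWQ

theorem exists_large {ι : Type} [Fintype ι] [Nonempty ι] (w : ι → ℕ) :
    ∃ c, ∏ i, w i ≤ (w c) ^ (Fintype.card ι) := by
  classical
  obtain ⟨c, -, hc⟩ := Finset.exists_max_image (Finset.univ : Finset ι) w Finset.univ_nonempty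
  refine ⟨c, ?_⟩
  calc ∏ i, w i ≤ ∏ _i : ι, w c := Finset.prod_le_prod' fun i hi => hc i hi
    _ = (w c) ^ (Fintype.card ι) := by rw [Finset.prod_const, Finset.card_univ]

/-- the smaller factor `r - s` of an edge is divisible by `p` -/
def Dm (a : Fin 4 → ℤ) (n₁ n₂ : ℤ) (i j : Fin 4) (p : ℕ) : Prop :=
  p ∣ rt (a i * a j + n₁) - rt (a i * a j + n₂)

theorem Dm_comm (a : Fin 4 → ℤ) (n₁ n₂ : ℤ) (i j : Fin 4) (p : ℕ) :
    Dm a n₁ n₂ i j p ↔ Dm a n₁ n₂ j i p := by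
  rw [Dm, Dm, mul_comm (a i)]

/-- `X` and `Y` agree on a class, or disagree on it -/
def Const (P : Finset ℕ) {ι : Type} (cls : ℕ → ι) (X Y : ℕ → Prop) : Prop :=
  ∀ c, (∀ p ∈ P, cls p = c → (X p ↔ Y p)) ∨ (∀ p ∈ P, cls p = c → ¬ (X p ↔ Y p))

theorem Const.trans {P : Finset ℕ} {ι : Type} {cls : ℕ → ι} {X Y Z : ℕ → Prop}
    (h1 : Const P cls X Y) (h2 : Const P cls Y Z) : Const P cls X Z := by
  intro c
  rcases h1 c with h1 | h1 <;> rcases h2 c with h2 | h2
  · exact Or.inl fun p hp hc => by have := h1 p hp hc; have := h2 p hp hc; tauto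
  · exact Or.inr fun p hp hc => by have := h1 p hp hc; have := h2 p hp hc; tauto
  · exact Or.inr fun p hp hc => by have := h1 p hp hc; have := h2 p hp hc; tauto
  · exact Or.inl fun p hp hc => by have := h1 p hp hc; have := h2 p hp hc; tauto

theorem Const.refl {P : Finset ℕ} {ι : Type} (cls : ℕ → ι) (X : ℕ → Prop) : Const P cls X X :=
  fun _ => Or.inl fun _ _ _ => Iff.rfl

/-- roots of an edge -/
theorem rt_edge {a : Fin 4 → ℤ} {n₁ n₂ : ℤ} (h : Two a n₁ n₂) {N : ℕ} (hN0 : 0 < N)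
    (hN : n₁ - n₂ = N) {i j : Fin 4} (hij : i ≠ j) :
    a i * a j + n₁ = (rt (a i * a j + n₁) : ℤ) ^ 2 ∧ a i * a j + n₂ = (rt (a i * a j + n₂) : ℤ) ^ 2 ∧
    rt (a i * a j + n₂) < rt (a i * a j + n₁) ∧
    (rt (a i * a j + n₁) - rt (a i * a j + n₂)) * (rt (a i * a j + n₁) + rt (a i * a j + n₂)) = N := by
  have h1 := rt_sq (h.2.2 i j hij).1
  have h2 := rt_sq (h.2.2 i j hij).2
  set r := rt (a i * a j + n₁)
  set s := rt (a i * a j + n₂)
  have h3 : (r : ℤ) ^ 2 - (s : ℤ) ^ 2 = N := by rw [h1, h2, ← hN]; ring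
  have h4 : (0 : ℤ) < N := by exact_mod_cast hN0
  have hr0 : (0 : ℤ) ≤ r := Int.natCast_nonneg _
  have hs0 : (0 : ℤ) ≤ s := Int.natCast_nonneg _
  have h5 : (s : ℤ) < r := by nlinarith
  have h6 : s < r := by exact_mod_cast h5
  refine ⟨h1.symm, h2.symm, h6, ?_⟩
  zify [h6.le]
  linear_combination h3

theorem rt_uniq {x : ℤ} {r : ℕ} (h : x = (r : ℤ) ^ 2) : r = rt x := by
  have h1 : IsSquare x := ⟨r, by rw [h]; ring⟩
  have h2 := rt_sq h1
  rw [h] at h2
  have h3 : (rt x) ^ 2 = r ^ 2 := by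
    rw [h] at *
    exact_mod_cast h2
  exact (Nat.pow_left_injective (n := 2) (by norm_num) h3).symm

theorem exists_class {a : Fin 4 → ℤ} {n₁ n₂ : ℤ} (h : Two a n₁ n₂) {N g : ℕ} (hN0 : 0 < N)
    (hN : n₁ - n₂ = N) (hg : g ∣ N) (hsq : Squarefree g) {ι : Type} [Fintype ι] [Nonempty ι] [DecidableEq ι]
    (cls : ℕ → ι) (D0 : ℕ → Prop) (E : Fin 4 → Fin 4 → Prop) (hE0 : ∀ i j, E i j → i ≠ j)
    (hE : ∀ i j, E i j → Const g.primeFactors cls (Dm a n₁ n₂ i j) D0) :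
    ∃ Q R : ℕ, 0 < Q ∧ 0 < R ∧ Nat.Coprime Q R ∧ Q * R ∣ g ∧ g ≤ (Q * R) ^ (Fintype.card ι) ∧
      ∀ i j, E i j → Sp a n₁ n₂ Q R i j := by
  classical
  set P := g.primeFactors with hP
  have hPp : ∀ p ∈ P, p.Prime := fun p hp => Nat.prime_of_mem_primeFactors hp
  have hD : ∀ i j, i ≠ j → ∀ p ∈ P, ¬ Dm a n₁ n₂ i j p →
      p ∣ rt (a i * a j + n₁) + rt (a i * a j + n₂) := by
    intro i j hij p hp hn
    have h1 := (rt_edge h hN0 hN hij).2.2.2
    have h2 : p ∣ (rt (a i * a j + n₁) - rt (a i * a j + n₂)) * (rt (a i * a j + n₁) + rt (a i * a j + n₂)) := by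
      rw [h1]
      exact (Nat.dvd_of_mem_primeFactors hp).trans hg
    exact ((hPp p hp).dvd_mul.1 h2).resolve_left hn
  obtain ⟨c, hc⟩ := exists_large (fun c : ι => ∏ p ∈ P with cls p = c, p)
  rw [Finset.prod_fiberwise, hP, Nat.prod_primeFactors_of_squarefree hsq] at hc
  rw [← hP] at hc
  set F := P.filter (fun p => cls p = c) with hF
  have hFP : ∀ p ∈ F, p ∈ P := fun p hp => (Finset.mem_filter.1 hp).1
  have hFc : ∀ p ∈ F, cls p = c := fun p hp => (Finset.mem_filter.1 hp).2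
  set Q := ∏ p ∈ F with D0 p, p with hQ
  set R := ∏ p ∈ F with ¬ D0 p, p with hR
  have hQR : Q * R = ∏ p ∈ F, p := Finset.prod_filter_mul_prod_filter_not F _ _
  have hwg : Q * R ∣ g := by
    rw [hQR]
    conv_rhs => rw [← Nat.prod_primeFactors_of_squarefree hsq]
    exact Finset.prod_dvd_prod_of_subset _ _ _ (Finset.filter_subset _ _)
  have hQ0 : 0 < Q := Finset.prod_pos fun p hp => (hPp p (hFP p (Finset.mem_filter.1 hp).1)).pos
  have hR0 : 0 < R := Finset.prod_pos fun p hp => (hPp p (hFP p (Finset.mem_filter.1 hp).1)).pos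
  have hdvd : ∀ (S : Finset ℕ) (n : ℕ), (∀ p ∈ S, p.Prime) → (∀ p ∈ S, p ∣ n) → ∏ p ∈ S, p ∣ n := by
    intro S n h1 h2
    exact Finset.prod_primes_dvd n (fun p hp => (h1 p hp).prime) h2
  refine ⟨Q, R, hQ0, hR0, Nat.coprime_of_squarefree_mul (hsq.squarefree_of_dvd hwg), hwg, ?_, ?_⟩
  · rw [hQR]; exact hc
  · intro i j hEij r' s' h1 h2
    have hij := hE0 i j hEij
    rw [rt_uniq h1, rt_uniq h2]
    rcases hE i j hEij c with hh | hh
    · left
      constructor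
      · refine hdvd _ _ (fun p hp => hPp p (hFP p (Finset.mem_filter.1 hp).1)) fun p hp => ?_
        have hpF := (Finset.mem_filter.1 hp).1
        exact (hh p (hFP p hpF) (hFc p hpF)).2 (Finset.mem_filter.1 hp).2
      · refine hdvd _ _ (fun p hp => hPp p (hFP p (Finset.mem_filter.1 hp).1)) fun p hp => ?_
        have hpF := (Finset.mem_filter.1 hp).1
        exact hD i j hij p (hFP p hpF) fun h3 =>
          (Finset.mem_filter.1 hp).2 ((hh p (hFP p hpF) (hFc p hpF)).1 h3)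
    · right
      constructor
      · refine hdvd _ _ (fun p hp => hPp p (hFP p (Finset.mem_filter.1 hp).1)) fun p hp => ?_
        have hpF := (Finset.mem_filter.1 hp).1
        exact hD i j hij p (hFP p hpF) fun h3 => hh p (hFP p hpF) (hFc p hpF)
          ⟨fun _ => (Finset.mem_filter.1 hp).2, fun _ => h3⟩
      · refine hdvd _ _ (fun p hp => hPp p (hFP p (Finset.mem_filter.1 hp).1)) fun p hp => ?_
        have hpF := (Finset.mem_filter.1 hp).1
        by_contra h3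
        exact hh p (hFP p hpF) (hFc p hpF)
          ⟨fun h4 => absurd h4 h3, fun h4 => absurd h4 (Finset.mem_filter.1 hp).2⟩

end Pool.Agent.TWR
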