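import Pool.Agent.Lib_helper39.TWR.Fin

/-!
MP_df6280_nt. From the number of the differences to the number of all tuples with two properties.
-/

set_option autoImplicit false

namespace Pool.Agent.TWR

open Pool.Agent.TWP Pool.Agent.TWQ Finset

open Classical in
theorem dbl_of_dif {θ : ℝ} (hdif : ∀ ε : ℝ, 0 < ε → ∃ C : ℝ, 0 ≤ C ∧ ∀ X : ℕ, 1 ≤ X →
    (((Ioc 0 X).filter fun N => Dif N).card : ℝ) ≤ C * (X : ℝ) ^ (θ + ε)) {k : ℕ} (hk : 4 ≤ k)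
    (ε : ℝ) (hε : 0 < ε) : ∃ C : ℝ, ∀ X : ℕ, 1 ≤ X →
    (Dbl k X).Finite ∧ ((Dbl k X).ncard : ℝ) ≤ C * (X : ℝ) ^ (θ + ε) := by
  obtain ⟨C, hC0, hC⟩ := hdif (ε / 2) (by positivity)
  have hk0 : (0 : ℝ) < (k * k : ℕ) := by
    have : 0 < k * k := Nat.mul_pos (by omega) (by omega)
    exact_mod_cast this
  obtain ⟨D, hD, hdiv⟩ := Pool.Agent.FG61.divisor_bound (show 0 < ε / (2 * (k * k : ℕ)) by positivity)
  refine ⟨C * (2 * D ^ (k * k)), fun X hX => ⟨(dbl_count hk X).1, ?_⟩⟩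
  have hX0 : (0 : ℝ) < X := by exact_mod_cast hX
  have h1 : ((Dbl k X).ncard : ℝ) ≤
      ∑ N ∈ (Ioc 0 X).filter fun N => Dif N, 2 * (N.divisors.card : ℝ) ^ (k * k) := by
    exact_mod_cast (dbl_count hk X).2
  have h2 : ∀ N ∈ (Ioc 0 X).filter fun N => Dif N,
      2 * (N.divisors.card : ℝ) ^ (k * k) ≤ 2 * D ^ (k * k) * (X : ℝ) ^ (ε / 2) := by
    intro N hN
    have hN1 := Finset.mem_Ioc.1 (Finset.mem_filter.1 hN).1
    have h3 : (N.divisors.card : ℝ) ≤ D * (X : ℝ) ^ (ε / (2 * (k * k : ℕ))) := by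
      refine (hdiv N hN1.1).trans ?_
      have h4 : (N : ℝ) ≤ X := by exact_mod_cast hN1.2
      gcongr
    calc 2 * (N.divisors.card : ℝ) ^ (k * k) ≤ 2 * (D * (X : ℝ) ^ (ε / (2 * (k * k : ℕ)))) ^ (k * k) := by
          gcongr
      _ = 2 * D ^ (k * k) * (X : ℝ) ^ (ε / 2) := by
          rw [mul_pow, ← Real.rpow_natCast ((X : ℝ) ^ (ε / (2 * (k * k : ℕ)))) (k * k),
            ← Real.rpow_mul hX0.le]
          rw [show ε / (2 * ((k * k : ℕ) : ℝ)) * ((k * k : ℕ) : ℝ) = ε / 2 by field_simp]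
          ring
  calc ((Dbl k X).ncard : ℝ) ≤ _ := h1
    _ ≤ ∑ _N ∈ (Ioc 0 X).filter fun N => Dif N, 2 * D ^ (k * k) * (X : ℝ) ^ (ε / 2) :=
        Finset.sum_le_sum h2
    _ = (((Ioc 0 X).filter fun N => Dif N).card : ℝ) * (2 * D ^ (k * k) * (X : ℝ) ^ (ε / 2)) := by
        rw [Finset.sum_const, nsmul_eq_mul]
    _ ≤ (C * (X : ℝ) ^ (θ + ε / 2)) * (2 * D ^ (k * k) * (X : ℝ) ^ (ε / 2)) := by
        gcongr
        exact hC X hX
    _ = C * (2 * D ^ (k * k)) * (X : ℝ) ^ (θ + ε) := by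
        have e : (X : ℝ) ^ (θ + ε) = (X : ℝ) ^ (θ + ε / 2) * (X : ℝ) ^ (ε / 2) := by
          rw [← Real.rpow_add hX0]
          congr 1
          ring
        rw [e]
        ring

end Pool.Agent.TWR
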