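import Pool.Agent.Lib_helper39.TWR.Cls

/-!
MP_df6280_nt. Power saving with five edges: the classes, and the degenerate case.
-/

set_option autoImplicit false

namespace Pool.Agent.TWR

open Pool.Agent.TWP Pool.Agent.TWQ

theorem orient {a : Fin 4 → ℤ} {n₁ n₂ : ℤ} (h : Two a n₁ n₂) {N : ℕ} (hN0 : 0 < N)
    (hN : n₁ - n₂ = N) {P : Finset ℕ} (hex : ∀ p ∈ P, p.Prime ∧ p ∣ N ∧ ¬ p * p ∣ N) {i j : Fin 4}
    (hij : i ≠ j) {E : ℕ} (hE : E = rt (a i * a j + n₁) - rt (a i * a j + n₂) ∨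
      E = rt (a i * a j + n₁) + rt (a i * a j + n₂)) {ι : Type} (cls : ℕ → ι) :
    Const P cls (Dm a n₁ n₂ i j) (fun p => p ∣ E) := by
  intro c
  have h1 := (rt_edge h hN0 hN hij).2.2.2
  rcases hE with hE | hE
  · left
    intro p _ _
    rw [hE, Dm]
  · right
    intro p hp _
    obtain ⟨h2, h3, h4⟩ := hex p hp
    rw [hE, Dm]
    intro h5
    rw [← h1] at h3 h4
    rcases h2.dvd_mul.1 h3 with h6 | h6
    · exact h4 (mul_dvd_mul h6 (h5.1 h6))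
    · exact h4 (mul_dvd_mul (h5.2 h6) h6)

theorem sq_dvd_mul {p A B : ℕ} (hp : p.Prime) (h : p * p ∣ A * B) (hB : ¬ p * p ∣ B) : p ∣ A := by
  by_contra hA
  have hc : Nat.Coprime (p * p) A :=
    Nat.Coprime.mul_left ((Nat.Prime.coprime_iff_not_dvd hp).2 hA) ((Nat.Prime.coprime_iff_not_dvd hp).2 hA)
  exact hB (hc.dvd_of_dvd_mul_left h)

theorem val4 {p A B C D : ℕ} (hp : p.Prime) (hA : ¬ p * p ∣ A) (hB : ¬ p * p ∣ B)
    (hC : ¬ p * p ∣ C) (hD : ¬ p * p ∣ D) (h : A * B = C * D) :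
    ((p ∣ A ∧ p ∣ B) ↔ (p ∣ C ∧ p ∣ D)) ∧ ((p ∣ A ∨ p ∣ B) ↔ (p ∣ C ∨ p ∣ D)) := by
  refine ⟨⟨fun ⟨h1, h2⟩ => ?_, fun ⟨h1, h2⟩ => ?_⟩, ?_⟩
  · have h3 : p * p ∣ C * D := h ▸ mul_dvd_mul h1 h2
    exact ⟨sq_dvd_mul hp h3 hD, sq_dvd_mul hp (by rw [mul_comm D]; exact h3) hC⟩
  · have h3 : p * p ∣ A * B := h.symm ▸ mul_dvd_mul h1 h2
    exact ⟨sq_dvd_mul hp h3 hB, sq_dvd_mul hp (by rw [mul_comm B]; exact h3) hA⟩
  · rw [← hp.dvd_mul, ← hp.dvd_mul, h]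

theorem pat (A B C D : Prop) (h1 : (A ∧ B) ↔ (C ∧ D)) (h2 : (A ∨ B) ↔ (C ∨ D)) :
    ((A ↔ B) → (C ↔ A)) ∧ ((A ↔ B) → (D ↔ A)) ∧ (¬ (A ↔ B) ∧ (C ↔ A) → ¬ (D ↔ A)) ∧
      (¬ (A ↔ B) ∧ ¬ (C ↔ A) → (D ↔ A)) := by
  tauto

/-- the class of the degenerate case -/
def kap (x y : Prop) [Decidable x] [Decidable y] : Fin 3 := if x then 0 else if y then 1 else 2

theorem kap_spec (x y : Prop) [Decidable x] [Decidable y] :
    (kap x y = 0 → x) ∧ (kap x y = 1 → ¬ x ∧ y) ∧ (kap x y = 2 → ¬ x ∧ ¬ y) := by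
  unfold kap
  split_ifs <;> simp_all

/-- the degenerate case: `E₀₁ E₀₂ = E₃₁ E₃₂` leaves 12 classes for all six edges -/
theorem degenerate {a : Fin 4 → ℤ} {n₁ n₂ : ℤ} (h : Two a n₁ n₂) {N g : ℕ} (hN0 : 0 < N)
    (hN : n₁ - n₂ = N) (hg : g ∣ N) (hsq : Squarefree g) (hex : ∀ p ∈ g.primeFactors, ¬ p * p ∣ N)
    {E01 E02 E31 E32 : ℕ}
    (h01 : E01 = rt (a 0 * a 1 + n₁) - rt (a 0 * a 1 + n₂) ∨ E01 = rt (a 0 * a 1 + n₁) + rt (a 0 * a 1 + n₂))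
    (h02 : E02 = rt (a 0 * a 2 + n₁) - rt (a 0 * a 2 + n₂) ∨ E02 = rt (a 0 * a 2 + n₁) + rt (a 0 * a 2 + n₂))
    (h31 : E31 = rt (a 3 * a 1 + n₁) - rt (a 3 * a 1 + n₂) ∨ E31 = rt (a 3 * a 1 + n₁) + rt (a 3 * a 1 + n₂))
    (h32 : E32 = rt (a 3 * a 2 + n₁) - rt (a 3 * a 2 + n₂) ∨ E32 = rt (a 3 * a 2 + n₁) + rt (a 3 * a 2 + n₂))
    (hE : E01 * E02 = E31 * E32) :
    ∃ Q R : ℕ, 0 < Q ∧ 0 < R ∧ Nat.Coprime Q R ∧ Q * R ∣ g ∧ g ≤ (Q * R) ^ 12 ∧ Split a n₁ n₂ Q R := by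
  classical
  set P := g.primeFactors with hP
  have hex' : ∀ p ∈ P, p.Prime ∧ p ∣ N ∧ ¬ p * p ∣ N := fun p hp =>
    ⟨Nat.prime_of_mem_primeFactors hp, (Nat.dvd_of_mem_primeFactors hp).trans hg, hex p hp⟩
  have hdv : ∀ {i j : Fin 4}, i ≠ j → ∀ {E : ℕ}, (E = rt (a i * a j + n₁) - rt (a i * a j + n₂) ∨
      E = rt (a i * a j + n₁) + rt (a i * a j + n₂)) → E ∣ N := by
    intro i j hij E hE
    have h1 := (rt_edge h hN0 hN hij).2.2.2
    rcases hE with hE | hE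
    · rw [hE]; exact ⟨_, h1.symm⟩
    · rw [hE]; exact Dvd.intro_left _ h1
  have d01 := hdv (by decide : (0 : Fin 4) ≠ 1) h01
  have d02 := hdv (by decide : (0 : Fin 4) ≠ 2) h02
  have d31 := hdv (by decide : (3 : Fin 4) ≠ 1) h31
  have d32 := hdv (by decide : (3 : Fin 4) ≠ 2) h32
  have hv : ∀ p ∈ P, ((p ∣ E01 ∧ p ∣ E02) ↔ (p ∣ E31 ∧ p ∣ E32)) ∧
      ((p ∣ E01 ∨ p ∣ E02) ↔ (p ∣ E31 ∨ p ∣ E32)) := fun p hp =>
    val4 (hex' p hp).1 (fun h1 => hex p hp (h1.trans d01)) (fun h1 => hex p hp (h1.trans d02))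
      (fun h1 => hex p hp (h1.trans d31)) (fun h1 => hex p hp (h1.trans d32)) hE
  let cls : ℕ → Fin 3 × Bool × Bool := fun p =>
    (kap (p ∣ E01 ↔ p ∣ E02) (p ∣ E31 ↔ p ∣ E01), decide (Dm a n₁ n₂ 0 3 p ↔ p ∣ E01),
      decide (Dm a n₁ n₂ 1 2 p ↔ p ∣ E01))
  have hk : ∀ p c, cls p = c → kap (p ∣ E01 ↔ p ∣ E02) (p ∣ E31 ↔ p ∣ E01) = c.1 := by
    rintro p c rfl; rfl
  have c02 : Const P cls (fun p => p ∣ E02) (fun p => p ∣ E01) := by
    intro c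
    by_cases h0 : c.1 = 0
    · left
      intro p hp hc
      have h1 := (kap_spec (p ∣ E01 ↔ p ∣ E02) (p ∣ E31 ↔ p ∣ E01)).1 (by rw [hk p c hc, h0])
      exact h1.symm
    · right
      intro p hp hc
      by_cases h1 : c.1 = 1
      · have h2 := (kap_spec (p ∣ E01 ↔ p ∣ E02) (p ∣ E31 ↔ p ∣ E01)).2.1 (by rw [hk p c hc, h1])
        exact fun h3 => h2.1 h3.symm
      · have h3 : c.1 = 2 := by
          have := c.1.isLt
          omega
        have h2 := (kap_spec (p ∣ E01 ↔ p ∣ E02) (p ∣ E31 ↔ p ∣ E01)).2.2 (by rw [hk p c hc, h3])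
        exact fun h3 => h2.1 h3.symm
  have c31 : Const P cls (fun p => p ∣ E31) (fun p => p ∣ E01) := by
    intro c
    by_cases h0 : c.1 = 0
    · left
      intro p hp hc
      have h1 := (kap_spec (p ∣ E01 ↔ p ∣ E02) (p ∣ E31 ↔ p ∣ E01)).1 (by rw [hk p c hc, h0])
      exact (pat _ _ _ _ (hv p hp).1 (hv p hp).2).1 h1
    · by_cases h1 : c.1 = 1
      · left
        intro p hp hc
        exact ((kap_spec (p ∣ E01 ↔ p ∣ E02) (p ∣ E31 ↔ p ∣ E01)).2.1 (by rw [hk p c hc, h1])).2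
      · right
        intro p hp hc
        have h3 : c.1 = 2 := by
          have := c.1.isLt
          omega
        exact ((kap_spec (p ∣ E01 ↔ p ∣ E02) (p ∣ E31 ↔ p ∣ E01)).2.2 (by rw [hk p c hc, h3])).2
  have c32 : Const P cls (fun p => p ∣ E32) (fun p => p ∣ E01) := by
    intro c
    by_cases h0 : c.1 = 0
    · left
      intro p hp hc
      have h1 := (kap_spec (p ∣ E01 ↔ p ∣ E02) (p ∣ E31 ↔ p ∣ E01)).1 (by rw [hk p c hc, h0])
      exact (pat _ _ _ _ (hv p hp).1 (hv p hp).2).2.1 h1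
    · by_cases h1 : c.1 = 1
      · right
        intro p hp hc
        have h3 := (kap_spec (p ∣ E01 ↔ p ∣ E02) (p ∣ E31 ↔ p ∣ E01)).2.1 (by rw [hk p c hc, h1])
        exact (pat _ _ _ _ (hv p hp).1 (hv p hp).2).2.2.1 h3
      · left
        intro p hp hc
        have h3 : c.1 = 2 := by
          have := c.1.isLt
          omega
        have h3 := (kap_spec (p ∣ E01 ↔ p ∣ E02) (p ∣ E31 ↔ p ∣ E01)).2.2 (by rw [hk p c hc, h3])
        exact (pat _ _ _ _ (hv p hp).1 (hv p hp).2).2.2.2 h3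
  have c03 : Const P cls (Dm a n₁ n₂ 0 3) (fun p => p ∣ E01) := by
    intro c
    rcases hb : c.2.1 with _ | _
    · right
      intro p hp hc
      have h1 : decide (Dm a n₁ n₂ 0 3 p ↔ p ∣ E01) = false := by rw [← hb, ← hc]
      exact of_decide_eq_false h1
    · left
      intro p hp hc
      have h1 : decide (Dm a n₁ n₂ 0 3 p ↔ p ∣ E01) = true := by rw [← hb, ← hc]
      exact of_decide_eq_true h1
  have c12 : Const P cls (Dm a n₁ n₂ 1 2) (fun p => p ∣ E01) := by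
    intro c
    rcases hb : c.2.2 with _ | _
    · right
      intro p hp hc
      have h1 : decide (Dm a n₁ n₂ 1 2 p ↔ p ∣ E01) = false := by rw [← hb, ← hc]
      exact of_decide_eq_false h1
    · left
      intro p hp hc
      have h1 : decide (Dm a n₁ n₂ 1 2 p ↔ p ∣ E01) = true := by rw [← hb, ← hc]
      exact of_decide_eq_true h1
  have k01 := orient h hN0 hN hex' (by decide : (0 : Fin 4) ≠ 1) h01 cls
  have k02 := (orient h hN0 hN hex' (by decide : (0 : Fin 4) ≠ 2) h02 cls).trans c02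
  have k31 := (orient h hN0 hN hex' (by decide : (3 : Fin 4) ≠ 1) h31 cls).trans c31
  have k32 := (orient h hN0 hN hex' (by decide : (3 : Fin 4) ≠ 2) h32 cls).trans c32
  have hsw : ∀ i j, Const P cls (Dm a n₁ n₂ i j) (fun p => p ∣ E01) →
      Const P cls (Dm a n₁ n₂ j i) (fun p => p ∣ E01) := by
    intro i j hc
    have e : Dm a n₁ n₂ j i = Dm a n₁ n₂ i j := by
      funext p
      exact propext (Dm_comm a n₁ n₂ j i p)
    rw [e]
    exact hc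
  obtain ⟨Q, R, h1, h2, h3, h4, h5, h6⟩ := exists_class h hN0 hN hg hsq cls (fun p => p ∣ E01)
    (fun i j => i ≠ j) (fun i j hij => hij) (by
      intro i j hij
      fin_cases i <;> fin_cases j <;> first | exact absurd rfl hij | skip
      · exact k01
      · exact k02
      · exact c03
      · exact hsw 0 1 k01
      · exact c12
      · exact hsw 3 1 k31
      · exact hsw 0 2 k02
      · exact hsw 1 2 c12
      · exact hsw 3 2 k32
      · exact hsw 0 3 c03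
      · exact k31
      · exact k32)
  refine ⟨Q, R, h1, h2, h3, h4, ?_, fun i j hij => h6 i j hij⟩
  have : Fintype.card (Fin 3 × Bool × Bool) = 12 := by simp
  rw [this] at h5
  exact h5

end Pool.Agent.TWR
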