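import Pool.Agent.Lib_helper39.TWR.Deg
import Pool.Agent.Lib_helper39.TWQ.Cnt
import Pool.Agent.Lib_helper61.FG.DivB

/-!
MP_df6280_nt. Power saving with five edges: the decomposition of a difference and the count.
-/

set_option autoImplicit false

namespace Pool.Agent.TWR

open Pool.Agent.TWP Pool.Agent.TWQ Finset

/-- the four edges of the cycle `1 0 2 3` -/
def edge4 : Fin 4 → Fin 4 × Fin 4 := ![(0, 1), (0, 2), (3, 1), (3, 2)]

theorem main_pair {a : Fin 4 → ℤ} {n₁ n₂ : ℤ} (h : Two a n₁ n₂) {N g : ℕ} (hN0 : 0 < N)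
    (hN : n₁ - n₂ = N) (hg : g ∣ N) (hsq : Squarefree g) (hex : ∀ p ∈ g.primeFactors, ¬ p * p ∣ N) :
    ∃ Q R m : ℕ, 0 < Q ∧ 0 < R ∧ 0 < m ∧ Q * R ∣ g ∧ N = Q * R * m ∧ g ≤ (Q * R) ^ 16 ∧
      (Good m (Q, R) ∨ Good5 m (Q, R)) := by
  classical
  let cls : ℕ → (Fin 4 → Bool) := fun p k =>
    decide (Dm a n₁ n₂ (edge4 k).1 (edge4 k).2 p ↔ Dm a n₁ n₂ 0 3 p)
  have hk : ∀ k : Fin 4, Const g.primeFactors cls (Dm a n₁ n₂ (edge4 k).1 (edge4 k).2) (Dm a n₁ n₂ 0 3) := by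
    intro k c
    rcases hck : c k with _ | _
    · right
      intro p _ hc
      have h1 : cls p k = false := by rw [hc, hck]
      exact of_decide_eq_false h1
    · left
      intro p _ hc
      have h1 : cls p k = true := by rw [hc, hck]
      exact of_decide_eq_true h1
  have h30 : Dm a n₁ n₂ 3 0 = Dm a n₁ n₂ 0 3 := by
    funext p
    exact propext (Dm_comm a n₁ n₂ 3 0 p)
  obtain ⟨Q, R, hQ, hR, hco, hdg, hle, hsp⟩ := exists_class h hN0 hN hg hsq cls (Dm a n₁ n₂ 0 3)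
    (fun i j => i ≠ j ∧ (i = 0 ∨ i = 3)) (fun i j hij => hij.1) (by
      have k0 := hk 0
      have k1 := hk 1
      have k2 := hk 2
      have k3 := hk 3
      simp only [edge4, Matrix.cons_val] at k0 k1 k2 k3
      rintro i j ⟨hij, rfl | rfl⟩
      · fin_cases j
        · exact absurd rfl hij
        · exact k0
        · exact k1
        · exact Const.refl _ _
      · fin_cases j
        · show Const _ _ (Dm a n₁ n₂ 3 0) _
          rw [h30]
          exact Const.refl _ _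
        · exact k2
        · exact k3
        · exact absurd rfl hij)
  have hcard : Fintype.card (Fin 4 → Bool) = 16 := by simp
  rw [hcard] at hle
  obtain ⟨m, hm⟩ := hdg.trans hg
  have hm0 : 0 < m := by
    rcases Nat.eq_zero_or_pos m with h0 | h0
    · rw [h0, mul_zero] at hm; omega
    · exact h0
  have hN' : n₁ - n₂ = (Q : ℤ) * R * m := by rw [hN, hm]; push_cast; ring
  obtain ⟨e01, m01, r01, o01⟩ := edge_rel h hQ hR hm0 hN' (by decide : (0 : Fin 4) ≠ 1)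
    (hsp 0 1 ⟨by decide, Or.inl rfl⟩)
  obtain ⟨e02, m02, r02, o02⟩ := edge_rel h hQ hR hm0 hN' (by decide : (0 : Fin 4) ≠ 2)
    (hsp 0 2 ⟨by decide, Or.inl rfl⟩)
  obtain ⟨e03, m03, r03, -⟩ := edge_rel h hQ hR hm0 hN' (by decide : (0 : Fin 4) ≠ 3)
    (hsp 0 3 ⟨by decide, Or.inl rfl⟩)
  obtain ⟨e31, m31, r31, o31⟩ := edge_rel h hQ hR hm0 hN' (by decide : (3 : Fin 4) ≠ 1)
    (hsp 3 1 ⟨by decide, Or.inr rfl⟩)
  obtain ⟨e32, m32, r32, o32⟩ := edge_rel h hQ hR hm0 hN' (by decide : (3 : Fin 4) ≠ 2)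
    (hsp 3 2 ⟨by decide, Or.inr rfl⟩)
  obtain ⟨e30, m30, r30, -⟩ := edge_rel h hQ hR hm0 hN' (by decide : (3 : Fin 4) ≠ 0)
    (hsp 3 0 ⟨by decide, Or.inr rfl⟩)
  by_cases hnd : e01 * e02 = e31 * e32
  · -- the degenerate case
    have or' : ∀ {i j : Fin 4} (hij : i ≠ j) {E : ℕ}, (∀ r s : ℕ, a i * a j + n₁ = (r : ℤ) ^ 2 →
        a i * a j + n₂ = (s : ℤ) ^ 2 → (E = r - s ∧ s < r) ∨ (E = r + s ∧ s < r)) →
        (E = rt (a i * a j + n₁) - rt (a i * a j + n₂) ∨ E = rt (a i * a j + n₁) + rt (a i * a j + n₂)) := by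
      intro i j hij E ho
      obtain ⟨g1, g2, -, -⟩ := rt_edge h hN0 hN hij
      rcases ho _ _ g1 g2 with h1 | h1
      · exact Or.inl h1.1
      · exact Or.inr h1.1
    obtain ⟨Q', R', hQ', hR', hco', hdg', hle', hsp'⟩ := degenerate h hN0 hN hg hsq hex
      (or' (by decide : (0 : Fin 4) ≠ 1) o01) (or' (by decide : (0 : Fin 4) ≠ 2) o02)
      (or' (by decide : (3 : Fin 4) ≠ 1) o31) (or' (by decide : (3 : Fin 4) ≠ 2) o32)
      (by
        calc Q * e01 * (Q * e02) = Q * Q * (e01 * e02) := by ring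
          _ = Q * Q * (e31 * e32) := by rw [hnd]
          _ = Q * e31 * (Q * e32) := by ring)
    obtain ⟨m', hm'⟩ := hdg'.trans hg
    have hm0' : 0 < m' := by
      rcases Nat.eq_zero_or_pos m' with h0 | h0
      · rw [h0, mul_zero] at hm'; omega
      · exact h0
    refine ⟨Q', R', m', hQ', hR', hm0', hdg', hm', ?_, Or.inl ⟨hQ', hR', hco', a, n₁, n₂, h, ?_, hsp'⟩⟩
    · exact hle'.trans (Nat.pow_le_pow_right (Nat.mul_pos hQ' hR') (by norm_num))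
    · show n₁ - n₂ = (Q' : ℤ) * R' * m'
      rw [hN, hm']; push_cast; ring
  · refine ⟨Q, R, m, hQ, hR, hm0, hdg, hm, hle, Or.inr ⟨hQ, hR, hco, a,
      4 * n₁ - 2 * ((Q : ℤ) * R * m), ![e01, e02, e03, e31, e32, e30], ?_, ?_⟩⟩
    · intro k
      fin_cases k
      · exact m01
      · exact m02
      · exact m03
      · exact m31
      · exact m32
      · exact m30
    · exact ⟨h.1, h.2.1, r01, r02, r03, r31, r32, r30, hnd⟩

/-- the pairs of a cofactor -/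
def WW (m : ℕ) (z : ℕ × ℕ) : Prop := Good m z ∨ Good5 m z

theorem decomp {N : ℕ} (hN : Dif N) (hN0 : 0 < N) :
    ∃ Q R w v d : ℕ, 0 < Q ∧ 0 < R ∧ 0 < w ∧ 0 < v ∧ d ∈ v.divisors ∧ N = Q * R * (w * (v ^ 2 * d)) ∧
      w ≤ (Q * R) ^ (16 - 1) ∧ WW (w * (v ^ 2 * d)) (Q, R) := by
  obtain ⟨a, n, h1, h2⟩ := hN
  have h : Two a (n + N) n := two_of h2 h1
  obtain ⟨u, v, huv, hsq⟩ := Nat.sq_mul_squarefree N
  have hu0 : 0 < u := by
    rcases Nat.eq_zero_or_pos u with h0 | h0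
    · rw [h0, mul_zero] at huv; omega
    · exact h0
  have hv0 : 0 < v := by
    rcases Nat.eq_zero_or_pos v with h0 | h0
    · rw [h0] at huv; simp at huv; omega
    · exact h0
  obtain ⟨g, hgd⟩ := Nat.gcd_dvd_left u v
  set d := Nat.gcd u v with hd
  have hd0 : 0 < d := Nat.gcd_pos_of_pos_left v hu0
  have hdv : d ∣ v := Nat.gcd_dvd_right u v
  have hg0 : 0 < g := by
    rcases Nat.eq_zero_or_pos g with h0 | h0
    · rw [h0, mul_zero] at hgd; omega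
    · exact h0
  have hsqg : Squarefree g := hsq.squarefree_of_dvd (Dvd.intro_left d hgd.symm)
  have hcdg : Nat.Coprime d g := Nat.coprime_of_squarefree_mul (by rw [← hgd]; exact hsq)
  have hcgv : Nat.Coprime g v := by
    rw [Nat.coprime_iff_gcd_eq_one]
    have e1 : Nat.gcd g v ∣ d := Nat.dvd_gcd ((Nat.gcd_dvd_left g v).trans (Dvd.intro_left d hgd.symm))
      (Nat.gcd_dvd_right g v)
    exact Nat.eq_one_of_dvd_coprimes hcdg e1 (Nat.gcd_dvd_left g v)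
  have hNg : N = g * (v ^ 2 * d) := by
    rw [← huv, hgd]; ring
  have hcop : Nat.Coprime g (v ^ 2 * d) := Nat.Coprime.mul_right (Nat.Coprime.pow_right 2 hcgv) hcdg.symm
  have hex : ∀ p ∈ g.primeFactors, ¬ p * p ∣ N := by
    intro p hp hpp
    have hpp' := Nat.prime_of_mem_primeFactors hp
    have hpg := Nat.dvd_of_mem_primeFactors hp
    have hc : Nat.Coprime p (v ^ 2 * d) := Nat.Coprime.coprime_dvd_left hpg hcop
    rw [hNg] at hpp
    have h3 : p * p ∣ g := (Nat.Coprime.mul_left hc hc).dvd_of_dvd_mul_right hpp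
    have h4 := Nat.squarefree_iff_prime_squarefree.1 hsqg p hpp'
    exact h4 h3
  obtain ⟨Q, R, m, hQ, hR, hm, ⟨w, hw⟩, hNm, hle, hW⟩ := main_pair h hN0 (by ring)
    (Dvd.intro _ hNg.symm) hsqg hex
  have hw0 : 0 < w := by
    rcases Nat.eq_zero_or_pos w with h0 | h0
    · rw [h0, mul_zero] at hw; omega
    · exact h0
  have hQR : 0 < Q * R := Nat.mul_pos hQ hR
  have hNe : N = Q * R * (w * (v ^ 2 * d)) := by rw [hNg, hw]; ring
  have hme : m = w * (v ^ 2 * d) := Nat.eq_of_mul_eq_mul_left hQR (hNm.symm.trans hNe)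
  refine ⟨Q, R, w, v, d, hQ, hR, hw0, hv0, Nat.mem_divisors.2 ⟨hdv, hv0.ne'⟩, hNe, ?_, ?_⟩
  · have h3 : (Q * R) * w ≤ (Q * R) * (Q * R) ^ (16 - 1) := by
      rw [← pow_succ', ← hw]
      exact hle
    exact Nat.le_of_mul_le_mul_left h3 hQR
  · rw [← hme]; exact hW

open Classical in
theorem count2 {A : Set ℕ} {K : ℕ} (hK : 3 ≤ K) (W : ℕ → ℕ × ℕ → Prop)
    (hA : ∀ N ∈ A, 0 < N → ∃ Q R w v d : ℕ, 0 < Q ∧ 0 < R ∧ 0 < w ∧ 0 < v ∧ d ∈ v.divisors ∧
      N = Q * R * (w * (v ^ 2 * d)) ∧ w ≤ (Q * R) ^ (K - 1) ∧ W (w * (v ^ 2 * d)) (Q, R))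
    {B T : ℝ} (hB0 : 0 ≤ B) {X : ℕ} (hT : ∀ v : ℕ, 0 < v → v ≤ X → (v.divisors.card : ℝ) ≤ T)
    (hB : ∀ m, 0 < m → m ≤ X → ∀ S : Finset (ℕ × ℕ), (∀ z ∈ S, W m z) → (S.card : ℝ) ≤ B) :
    (((Ioc 0 X).filter fun N => N ∈ A).card : ℝ) ≤
      B * T * ZZ K * (X : ℝ) ^ (((K : ℝ) - 1) / K) := by
  set κ : ℝ := ((K : ℝ) - 1) / K with hκ
  have hK0 : (3 : ℝ) ≤ K := by exact_mod_cast hK
  have hκ0 : 0 ≤ κ := by
    rw [hκ]
    apply div_nonneg <;> linarith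
  let U : ℕ → ℕ := fun v => ⌊((X : ℝ) / (v : ℝ) ^ 2) ^ κ⌋₊
  let V : ℕ → ℕ → ℕ → Finset (ℕ × ℕ) := fun v d w =>
    (Ioc 0 X ×ˢ Ioc 0 X).filter fun z => W (w * (v ^ 2 * d)) z ∧ z.1 * z.2 * (w * (v ^ 2 * d)) ≤ X
  let E : Finset ℕ := (Ioc 0 X).biUnion fun v => v.divisors.biUnion fun d =>
    (Ioc 0 (U v)).biUnion fun w => (V v d w).image fun z => z.1 * z.2 * (w * (v ^ 2 * d))
  have hcov : ((Ioc 0 X).filter fun N => N ∈ A) ⊆ E := by
    intro N hN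
    obtain ⟨hN1, hNA⟩ := Finset.mem_filter.1 hN
    rw [Finset.mem_Ioc] at hN1
    obtain ⟨Q, R, w, v, d, hQ, hR, hw, hv, hd, hN2, hle, hW⟩ := hA N hNA hN1.1
    have hd0 : 0 < d := Nat.pos_of_mem_divisors hd
    have hNX : Q * R * (w * (v ^ 2 * d)) ≤ X := by rw [← hN2]; exact hN1.2
    have hQR : 0 < Q * R := Nat.mul_pos hQ hR
    have hv2 : 0 < v ^ 2 * d := by positivity
    have hwv : 0 < w * (v ^ 2 * d) := Nat.mul_pos hw hv2
    have hvX : v ≤ X := by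
      calc v ≤ v ^ 2 := Nat.le_self_pow (by norm_num) v
        _ ≤ v ^ 2 * d := Nat.le_mul_of_pos_right _ hd0
        _ ≤ w * (v ^ 2 * d) := Nat.le_mul_of_pos_left _ hw
        _ ≤ Q * R * (w * (v ^ 2 * d)) := Nat.le_mul_of_pos_left _ hQR
        _ ≤ X := hNX
    have hQX : Q ≤ X := by
      calc Q ≤ Q * R := Nat.le_mul_of_pos_right _ hR
        _ ≤ Q * R * (w * (v ^ 2 * d)) := Nat.le_mul_of_pos_right _ hwv
        _ ≤ X := hNX
    have hRX : R ≤ X := by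
      calc R ≤ Q * R := Nat.le_mul_of_pos_left _ hQ
        _ ≤ Q * R * (w * (v ^ 2 * d)) := Nat.le_mul_of_pos_right _ hwv
        _ ≤ X := hNX
    have hwX : Q * R * (w * v ^ 2) ≤ X := by
      refine le_trans ?_ hNX
      gcongr
      exact Nat.le_mul_of_pos_right _ hd0
    have hwU : w ≤ U v := Nat.le_floor (u_le (by omega) hv hwX hle)
    refine Finset.mem_biUnion.2 ⟨v, Finset.mem_Ioc.2 ⟨hv, hvX⟩, Finset.mem_biUnion.2 ⟨d, hd,
      Finset.mem_biUnion.2 ⟨w, Finset.mem_Ioc.2 ⟨hw, hwU⟩, Finset.mem_image.2 ⟨(Q, R), Finset.mem_filter.2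
        ⟨Finset.mem_product.2 ⟨Finset.mem_Ioc.2 ⟨hQ, hQX⟩, Finset.mem_Ioc.2 ⟨hR, hRX⟩⟩, hW, hNX⟩,
        hN2.symm⟩⟩⟩⟩
  have hV : ∀ v d w, 0 < v → 0 < d → 0 < w → ((V v d w).card : ℝ) ≤ B := by
    intro v d w hv hd hw
    by_cases hemp : (V v d w).Nonempty
    · obtain ⟨z, hz⟩ := hemp
      have hz1 := Finset.mem_filter.1 hz
      have hz2 := Finset.mem_product.1 hz1.1
      rw [Finset.mem_Ioc, Finset.mem_Ioc] at hz2
      refine hB (w * (v ^ 2 * d)) (by positivity) ?_ _ fun z' hz' => (Finset.mem_filter.1 hz').2.1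
      calc w * (v ^ 2 * d) ≤ z.1 * z.2 * (w * (v ^ 2 * d)) :=
            Nat.le_mul_of_pos_left _ (Nat.mul_pos hz2.1.1 hz2.2.1)
        _ ≤ X := hz1.2.2
    · rw [Finset.not_nonempty_iff_eq_empty] at hemp
      rw [hemp]
      simpa using hB0
  have h1 : (E.card : ℝ) ≤ ∑ v ∈ Ioc 0 X, T * (((X : ℝ) / (v : ℝ) ^ 2) ^ κ * B) := by
    calc (E.card : ℝ) ≤ ((∑ v ∈ Ioc 0 X, ∑ d ∈ v.divisors, ∑ w ∈ Ioc 0 (U v), (V v d w).card : ℕ) : ℝ) := by
          exact_mod_cast Finset.card_biUnion_le.trans (Finset.sum_le_sum fun v _ =>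
            Finset.card_biUnion_le.trans (Finset.sum_le_sum fun d _ =>
              Finset.card_biUnion_le.trans (Finset.sum_le_sum fun w _ => Finset.card_image_le)))
      _ = ∑ v ∈ Ioc 0 X, ∑ d ∈ v.divisors, ∑ w ∈ Ioc 0 (U v), ((V v d w).card : ℝ) := by push_cast; rfl
      _ ≤ ∑ v ∈ Ioc 0 X, ∑ _d ∈ v.divisors, ∑ _w ∈ Ioc 0 (U v), B := by
          refine Finset.sum_le_sum fun v hv => Finset.sum_le_sum fun d hd => Finset.sum_le_sum fun w hw => ?_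
          exact hV v d w (Finset.mem_Ioc.1 hv).1 (Nat.pos_of_mem_divisors hd) (Finset.mem_Ioc.1 hw).1
      _ = ∑ v ∈ Ioc 0 X, (v.divisors.card : ℝ) * ((U v : ℝ) * B) := by simp
      _ ≤ _ := by
          refine Finset.sum_le_sum fun v hv => ?_
          rw [Finset.mem_Ioc] at hv
          have h2 := hT v hv.1 hv.2
          have h3 : (U v : ℝ) ≤ ((X : ℝ) / (v : ℝ) ^ 2) ^ κ := Nat.floor_le (by positivity)
          have h4 : 0 ≤ T := le_trans (Nat.cast_nonneg _) h2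
          gcongr
  have h2 : ∑ v ∈ Ioc 0 X, T * (((X : ℝ) / (v : ℝ) ^ 2) ^ κ * B) ≤ B * T * ZZ K * (X : ℝ) ^ κ := by
    by_cases hX : X = 0
    · subst hX
      simp only [Finset.Ioc_self, Finset.sum_empty]
      by_cases hT0 : 0 ≤ T
      · exact mul_nonneg (mul_nonneg (mul_nonneg hB0 hT0) (ZZ_nonneg K)) (by positivity)
      · have hκ1 : 0 < κ := by
          rw [hκ]
          apply div_pos <;> linarith
        rw [Nat.cast_zero, Real.zero_rpow hκ1.ne', mul_zero]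
    have hT0 : 0 ≤ T := by
      have := hT 1 one_pos (by omega)
      exact le_trans (Nat.cast_nonneg _) this
    have e : ∀ v ∈ Ioc 0 X, T * (((X : ℝ) / (v : ℝ) ^ 2) ^ κ * B) =
        (B * T * (X : ℝ) ^ κ) * ((v : ℝ) ^ (2 * κ))⁻¹ := by
      intro v _
      rw [Real.div_rpow (by positivity) (by positivity), ← Real.rpow_natCast (v : ℝ) 2,
        ← Real.rpow_mul (by positivity), div_eq_mul_inv]
      push_cast
      ring
    rw [Finset.sum_congr rfl e, ← Finset.mul_sum]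
    calc B * T * (X : ℝ) ^ κ * ∑ v ∈ Ioc 0 X, ((v : ℝ) ^ (2 * κ))⁻¹ ≤ B * T * (X : ℝ) ^ κ * ZZ K := by
          gcongr
          exact sum_le_ZZ hK _
      _ = _ := by ring
  calc (((Ioc 0 X).filter fun N => N ∈ A).card : ℝ) ≤ E.card := by
        exact_mod_cast Finset.card_le_card hcov
    _ ≤ _ := h1
    _ ≤ _ := h2

open Classical in
/-- the number of differences -/
theorem dif_count16 (ε : ℝ) (hε : 0 < ε) : ∃ C : ℝ, 0 ≤ C ∧ ∀ X : ℕ, 1 ≤ X →
    (((Ioc 0 X).filter fun N => Dif N).card : ℝ) ≤ C * (X : ℝ) ^ (15 / 16 + ε) := by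
  set δ : ℝ := ε / 27 with hδ
  have hδ0 : 0 < δ := by positivity
  obtain ⟨D, hD, hdiv⟩ := Pool.Agent.FG61.divisor_bound hδ0
  refine ⟨(3 * D ^ 6 + 4 * D ^ 8) * D * ZZ 16, mul_nonneg (by positivity) (ZZ_nonneg 16), fun X hX => ?_⟩
  have hX0 : (0 : ℝ) < X := by exact_mod_cast hX
  have hX1 : (1 : ℝ) ≤ X := by exact_mod_cast hX
  have hdX : ∀ v : ℕ, 0 < v → v ≤ X → (v.divisors.card : ℝ) ≤ D * (X : ℝ) ^ δ := by
    intro v hv hvX
    refine (hdiv v hv).trans ?_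
    have : (v : ℝ) ≤ X := by exact_mod_cast hvX
    gcongr
  have h := count2 (A := {N | Dif N}) (K := 16) (by norm_num) WW (fun N hN hN0 => decomp hN hN0)
    (B := (3 * D ^ 6 + 4 * D ^ 8) * (X : ℝ) ^ (26 * δ)) (T := D * (X : ℝ) ^ δ) (by positivity) (X := X)
    hdX ?_
  · refine h.trans (le_of_eq ?_)
    have e : (X : ℝ) ^ (15 / 16 + ε) = (X : ℝ) ^ (26 * δ) * (X : ℝ) ^ δ * (X : ℝ) ^ ((((16 : ℕ) : ℝ) - 1) / (16 : ℕ)) := by
      rw [← Real.rpow_add hX0, ← Real.rpow_add hX0, hδ]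
      congr 1
      push_cast
      ring
    rw [e]
    ring
  · intro m hm hmX S hS
    have hm0 : (0 : ℝ) ≤ m := Nat.cast_nonneg m
    have h2 : (m.divisors.card : ℝ) ≤ D * (X : ℝ) ^ δ := hdX m hm hmX
    set S1 := S.filter fun z => Good m z with hS1
    set S2 := S.filter fun z => ¬ Good m z with hS2
    have hsplit : S.card = S1.card + S2.card := (Finset.card_filter_add_card_filter_not _).symm
    have c1 : (S1.card : ℝ) ≤ 3 * (m.divisors.card : ℝ) ^ 6 := by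
      exact_mod_cast card_pairs hm S1 fun z hz => (Finset.mem_filter.1 hz).2
    set D' : ℕ := ⌊D * ((X : ℝ) ^ δ) ^ 10⌋₊ with hD'
    have hD1 : ∀ z : ℕ, 0 < z → z ≤ m ^ 10 → z.divisors.card ≤ D' := by
      intro z hz hzm
      refine Nat.le_floor ?_
      refine (hdiv z hz).trans ?_
      have h3 : (z : ℝ) ≤ (X : ℝ) ^ 10 := by
        have : z ≤ X ^ 10 := hzm.trans (Nat.pow_le_pow_left hmX 10)
        exact_mod_cast this
      calc D * (z : ℝ) ^ δ ≤ D * ((X : ℝ) ^ 10) ^ δ := by gcongr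
        _ = D * ((X : ℝ) ^ δ) ^ 10 := by
            rw [← Real.rpow_natCast (X : ℝ) 10, ← Real.rpow_natCast ((X : ℝ) ^ δ) 10,
              ← Real.rpow_mul hX0.le, ← Real.rpow_mul hX0.le, mul_comm δ]
    have c2 : (S2.card : ℝ) ≤ (m.divisors.card : ℝ) ^ 6 * (4 * (D' : ℝ) ^ 2) := by
      exact_mod_cast card_five hm hD1 S2 fun z hz =>
        (hS z (Finset.mem_filter.1 hz).1).resolve_left (Finset.mem_filter.1 hz).2
    have hD2 : (D' : ℝ) ≤ D * ((X : ℝ) ^ δ) ^ 10 := Nat.floor_le (by positivity)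
    have hXδ : 1 ≤ (X : ℝ) ^ δ := Real.one_le_rpow hX1 hδ0.le
    have e26 : (X : ℝ) ^ (26 * δ) = ((X : ℝ) ^ δ) ^ 26 := by
      rw [← Real.rpow_natCast ((X : ℝ) ^ δ) 26, ← Real.rpow_mul hX0.le]
      congr 1
      push_cast
      ring
    rw [e26]
    set x : ℝ := (X : ℝ) ^ δ with hx
    calc (S.card : ℝ) = S1.card + S2.card := by exact_mod_cast hsplit
      _ ≤ 3 * (m.divisors.card : ℝ) ^ 6 + (m.divisors.card : ℝ) ^ 6 * (4 * (D' : ℝ) ^ 2) := by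
          linarith
      _ ≤ 3 * (D * x) ^ 6 + (D * x) ^ 6 * (4 * (D * x ^ 10) ^ 2) := by gcongr
      _ = 3 * D ^ 6 * x ^ 6 + 4 * D ^ 8 * x ^ 26 := by ring
      _ ≤ 3 * D ^ 6 * x ^ 26 + 4 * D ^ 8 * x ^ 26 := by
          have : x ^ 6 ≤ x ^ 26 := pow_le_pow_right₀ hXδ (by norm_num)
          gcongr
      _ = (3 * D ^ 6 + 4 * D ^ 8) * x ^ 26 := by ring

end Pool.Agent.TWR
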