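import Pool.Agent.Lib_helper39.TWR.Star

/-!
MP_df6280_nt. Power saving with five edges: for a fixed cofactor `m` there are few pairs `(Q, R)`.
-/

set_option autoImplicit false

namespace Pool.Agent.TWR

open Pool.Agent.TWP Pool.Agent.TWQ

/-- the five edges `0 1`, `0 2`, `0 3`, `3 1`, `3 2` (the edge `0 3` at both ends) -/
def Cfg (m : ℕ) (z : ℕ × ℕ) (a : Fin 4 → ℤ) (ν : ℤ) (e : Fin 6 → ℕ) : Prop :=
  Function.Injective a ∧ (∀ i, a i ≠ 0) ∧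
    Rl z.1 z.2 m ν (a 0 * a 1) (e 0) ∧ Rl z.1 z.2 m ν (a 0 * a 2) (e 1) ∧
    Rl z.1 z.2 m ν (a 0 * a 3) (e 2) ∧ Rl z.1 z.2 m ν (a 3 * a 1) (e 3) ∧
    Rl z.1 z.2 m ν (a 3 * a 2) (e 4) ∧ Rl z.1 z.2 m ν (a 3 * a 0) (e 5) ∧
    e 0 * e 1 ≠ e 3 * e 4

/-- the pairs of a cofactor `m`, five edges -/
def Good5 (m : ℕ) (z : ℕ × ℕ) : Prop :=
  0 < z.1 ∧ 0 < z.2 ∧ Nat.Coprime z.1 z.2 ∧
    ∃ (a : Fin 4 → ℤ) (ν : ℤ) (e : Fin 6 → ℕ), (∀ k, e k ∈ m.divisors) ∧ Cfg m z a ν e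

/-- the divisors of an integer -/
def ID (z : ℤ) : Finset ℤ :=
  (z.natAbs.divisors.image fun d : ℕ => (d : ℤ)) ∪ (z.natAbs.divisors.image fun d : ℕ => -(d : ℤ))

theorem mem_ID {z a : ℤ} (hz : z ≠ 0) (h : a ∣ z) : a ∈ ID z := by
  have h1 : a.natAbs ∈ z.natAbs.divisors :=
    Nat.mem_divisors.2 ⟨Int.natAbs_dvd_natAbs.2 h, Int.natAbs_ne_zero.2 hz⟩
  rcases Int.natAbs_eq a with h2 | h2
  · exact Finset.mem_union_left _ (Finset.mem_image.2 ⟨_, h1, h2.symm⟩)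
  · exact Finset.mem_union_right _ (Finset.mem_image.2 ⟨_, h1, h2.symm⟩)

theorem ID_card (z : ℤ) : (ID z).card ≤ 2 * z.natAbs.divisors.card := by
  refine (Finset.card_union_le _ _).trans ?_
  have h1 : (z.natAbs.divisors.image fun d : ℕ => (d : ℤ)).card ≤ z.natAbs.divisors.card :=
    Finset.card_image_le
  have h2 : (z.natAbs.divisors.image fun d : ℕ => -(d : ℤ)).card ≤ z.natAbs.divisors.card :=
    Finset.card_image_le
  omega

theorem card_five {m : ℕ} (hm : 0 < m) {D : ℕ} (hD : ∀ z : ℕ, 0 < z → z ≤ m ^ 10 → z.divisors.card ≤ D)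
    (S : Finset (ℕ × ℕ)) (hS : ∀ z ∈ S, Good5 m z) :
    S.card ≤ m.divisors.card ^ 6 * (4 * D ^ 2) := by
  classical
  let T := Fintype.piFinset fun _ : Fin 6 => m.divisors
  let St : (Fin 6 → ℕ) → Finset (ℕ × ℕ) := fun e => S.filter fun z => ∃ a ν, Cfg m z a ν e
  have hsub : S ⊆ T.biUnion St := by
    intro z hz
    obtain ⟨-, -, -, a, ν, e, h1, h2⟩ := hS z hz
    exact Finset.mem_biUnion.2 ⟨e, Fintype.mem_piFinset.2 h1, Finset.mem_filter.2 ⟨hz, a, ν, h2⟩⟩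
  have hcard : ∀ e ∈ T, (St e).card ≤ 4 * D ^ 2 := by
    intro e he
    rw [Fintype.mem_piFinset] at he
    by_cases hemp : (St e).Nonempty
    swap
    · rw [Finset.not_nonempty_iff_eq_empty] at hemp
      rw [hemp]; simp
    have hpos : ∀ k, 0 < e k := fun k => Nat.pos_of_mem_divisors (he k)
    have hle : ∀ k, e k ≤ m := fun k => Nat.divisor_le (he k)
    -- the two numbers
    set Z0 := ZS m (e 0) (e 1) (e 2) with hZ0
    set Z3 := ZS m (e 3) (e 4) (e 5) with hZ3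
    obtain ⟨z₀, hz₀⟩ := hemp
    have hne : (e 0 ≠ e 1 ∧ e 0 ≠ e 2 ∧ e 1 ≠ e 2) ∧ (e 3 ≠ e 4 ∧ e 3 ≠ e 5 ∧ e 4 ≠ e 5) := by
      obtain ⟨-, a, ν, hi, hn, r0, r1, r2, r3, r4, r5, -⟩ := Finset.mem_filter.1 hz₀
      refine ⟨⟨?_, ?_, ?_⟩, ?_, ?_, ?_⟩
      · exact ne_edges r0 r1 (hn 0) (hi.ne (by decide)) (hpos 1)
      · exact ne_edges r0 r2 (hn 0) (hi.ne (by decide)) (hpos 2)
      · exact ne_edges r1 r2 (hn 0) (hi.ne (by decide)) (hpos 2)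
      · exact ne_edges r3 r4 (hn 3) (hi.ne (by decide)) (hpos 4)
      · exact ne_edges r3 r5 (hn 3) (hi.ne (by decide)) (hpos 5)
      · exact ne_edges r4 r5 (hn 3) (hi.ne (by decide)) (hpos 5)
    have hZ0n : Z0 ≠ 0 := ZS_ne hm (hpos 0) hne.1.1 hne.1.2.1 hne.1.2.2
    have hZ3n : Z3 ≠ 0 := ZS_ne hm (hpos 3) hne.2.1 hne.2.2.1 hne.2.2.2
    have hI0 : (ID Z0).card ≤ 2 * D :=
      (ID_card _).trans (Nat.mul_le_mul_left 2 (hD _ (Int.natAbs_pos.2 hZ0n) (ZS_le (hle 0) (hle 1) (hle 2))))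
    have hI3 : (ID Z3).card ≤ 2 * D :=
      (ID_card _).trans (Nat.mul_le_mul_left 2 (hD _ (Int.natAbs_pos.2 hZ3n) (ZS_le (hle 3) (hle 4) (hle 5))))
    have hex : ∀ z : ℕ × ℕ, ∃ w : ℤ × ℤ, z ∈ St e → w.1 ∈ ID Z0 ∧ w.2 ∈ ID Z3 ∧
        ∃ a ν, Cfg m z a ν e ∧ w = (a 0, a 3) := by
      intro z
      by_cases hz : z ∈ St e
      · obtain ⟨hzS, a, ν, hcf⟩ := Finset.mem_filter.1 hz
        obtain ⟨-, -, hco, -⟩ := hS z hzS
        have hcf' := hcf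
        obtain ⟨hi, hn, r0, r1, r2, r3, r4, r5, -⟩ := hcf'
        exact ⟨(a 0, a 3), fun _ => ⟨mem_ID hZ0n (star hco r0 r1 r2), mem_ID hZ3n (star hco r3 r4 r5),
          a, ν, hcf, rfl⟩⟩
      · exact ⟨(0, 0), fun h => absurd h hz⟩
    choose φ hφ using hex
    have hinj : Set.InjOn φ (St e : Set (ℕ × ℕ)) := by
      intro z hz z' hz' heq
      obtain ⟨-, -, a, ν, ⟨hi, hn, r0, r1, r2, r3, r4, r5, hnd⟩, hw⟩ := hφ z hz
      obtain ⟨-, -, b, ν', ⟨hi', hn', s0, s1, s2, s3, s4, s5, -⟩, hw'⟩ := hφ z' hz'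
      rw [heq, hw'] at hw
      have e0 : b 0 = a 0 := congrArg Prod.fst hw
      have e3 : b 3 = a 3 := congrArg Prod.snd hw
      rw [e0] at s0 s1
      rw [e3] at s3 s4
      obtain ⟨p1, p2, hco, -⟩ := hS z (Finset.mem_filter.1 hz).1
      obtain ⟨p1', p2', hco', -⟩ := hS z' (Finset.mem_filter.1 hz').1
      have e4 := ratio p2 r0 r1 r3 r4 s0 s1 s3 s4 hm (hn 3) hne.1.1 (hpos 0) (hpos 1) (hpos 3)
        (hpos 4) hnd
      -- `z.1 * z'.2 = z'.1 * z.2`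
      have d1 : z.1 ∣ z'.1 := hco.dvd_of_dvd_mul_right (Dvd.intro z'.2 e4)
      have d2 : z'.1 ∣ z.1 := hco'.dvd_of_dvd_mul_right (Dvd.intro z.2 e4.symm)
      have e5 : z.1 = z'.1 := Nat.dvd_antisymm d1 d2
      have e6 : z.2 = z'.2 := by
        rw [e5] at e4
        exact (Nat.eq_of_mul_eq_mul_left p1' e4).symm
      exact Prod.ext e5 e6
    calc (St e).card = ((St e).image φ).card := (Finset.card_image_of_injOn hinj).symm
      _ ≤ (ID Z0 ×ˢ ID Z3).card := by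
          refine Finset.card_le_card fun w hw => ?_
          obtain ⟨z, hz, rfl⟩ := Finset.mem_image.1 hw
          exact Finset.mem_product.2 ⟨(hφ z hz).1, (hφ z hz).2.1⟩
      _ = (ID Z0).card * (ID Z3).card := Finset.card_product _ _
      _ ≤ (2 * D) * (2 * D) := Nat.mul_le_mul hI0 hI3
      _ = 4 * D ^ 2 := by ring
  calc S.card ≤ (T.biUnion St).card := Finset.card_le_card hsub
    _ ≤ ∑ e ∈ T, (St e).card := Finset.card_biUnion_le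
    _ ≤ T.card • (4 * D ^ 2) := Finset.sum_le_card_nsmul _ _ _ hcard
    _ = m.divisors.card ^ 6 * (4 * D ^ 2) := by
        simp only [T, Fintype.card_piFinset, Finset.prod_const, Finset.card_univ, Fintype.card_fin,
          smul_eq_mul]

end Pool.Agent.TWR
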