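import Pool.Agent.Lib_helper39.TWQ.Pair

/-!
MP_df6280_nt. Power saving with five edges: the star lemma and the ratio lemma.

`Rl x e` is the relation `e ^ 2 (4 x + ν) = Q ^ 2 e ^ 4 + m ^ 2 R ^ 2` of a product `x = a i a j`.
Three edges at one vertex confine the element at this vertex to the divisors of a number which does
not depend on `Q`, `R`; two such elements and four edges determine the ratio `Q : R`.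
-/

set_option autoImplicit false

namespace Pool.Agent.TWR

open Pool.Agent.TWP Pool.Agent.TWQ

/-- the pair `i, j` splits `Q` and `R` -/
def Sp (a : Fin 4 → ℤ) (n₁ n₂ : ℤ) (Q R : ℕ) (i j : Fin 4) : Prop :=
  ∀ r s : ℕ, a i * a j + n₁ = (r : ℤ) ^ 2 → a i * a j + n₂ = (s : ℤ) ^ 2 →
    (Q ∣ r - s ∧ R ∣ r + s) ∨ (Q ∣ r + s ∧ R ∣ r - s)

theorem Sp.symm {a : Fin 4 → ℤ} {n₁ n₂ : ℤ} {Q R : ℕ} {i j : Fin 4} (h : Sp a n₁ n₂ Q R i j) :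
    Sp a n₁ n₂ Q R j i := fun r s hr hs =>
  h r s (by rw [mul_comm]; exact hr) (by rw [mul_comm]; exact hs)

/-- the relation of an edge -/
def Rl (Q R m : ℕ) (ν x : ℤ) (e : ℕ) : Prop :=
  (e : ℤ) ^ 2 * (4 * x + ν) = (Q : ℤ) ^ 2 * (e : ℤ) ^ 4 + (m : ℤ) ^ 2 * (R : ℤ) ^ 2

/-- the divisor of an edge, together with its orientation -/
theorem edge_rel {a : Fin 4 → ℤ} {n₁ n₂ : ℤ} (h : Two a n₁ n₂) {Q R m : ℕ} (hQ : 0 < Q)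
    (hR : 0 < R) (hm : 0 < m) (hN : n₁ - n₂ = (Q : ℤ) * R * m) {i j : Fin 4} (hij : i ≠ j)
    (hs : Sp a n₁ n₂ Q R i j) :
    ∃ e ∈ m.divisors, Rl Q R m (4 * n₁ - 2 * ((Q : ℤ) * R * m)) (a i * a j) e ∧
      ∀ r s : ℕ, a i * a j + n₁ = (r : ℤ) ^ 2 → a i * a j + n₂ = (s : ℤ) ^ 2 →
        (Q * e = r - s ∧ s < r) ∨ (Q * e = r + s ∧ s < r) := by
  obtain ⟨r, s, hr, hs'⟩ := h.roots i j hij
  have h1 : (r : ℤ) ^ 2 - (s : ℤ) ^ 2 = (Q : ℤ) * R * m := by rw [← hr, ← hs', ← hN]; ring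
  have hpm0 : (0 : ℤ) < (Q : ℤ) * R * m := by positivity
  have hr0 : (0 : ℤ) ≤ r := Int.natCast_nonneg r
  have hs0 : (0 : ℤ) ≤ s := Int.natCast_nonneg s
  have h2 : (s : ℤ) < r := by nlinarith
  have h2' : s < r := by exact_mod_cast h2
  have h3 : (r - s) * (r + s) = Q * R * m := by
    zify [h2'.le]
    linear_combination h1
  have huniq : ∀ r' s' : ℕ, a i * a j + n₁ = (r' : ℤ) ^ 2 → a i * a j + n₂ = (s' : ℤ) ^ 2 →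
      r' = r ∧ s' = s := by
    intro r' s' h4 h5
    rw [hr] at h4
    rw [hs'] at h5
    have e1 : r ^ 2 = r' ^ 2 := by exact_mod_cast h4
    have e2 : s ^ 2 = s' ^ 2 := by exact_mod_cast h5
    exact ⟨(Nat.pow_left_injective (n := 2) (by norm_num) e1).symm,
      (Nat.pow_left_injective (n := 2) (by norm_num) e2).symm⟩
  have comp : ∀ e f : ℕ, (Q * e) * (R * f) = Q * R * m → Q * e + R * f = 2 * r →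
      e ∈ m.divisors ∧ Rl Q R m (4 * n₁ - 2 * ((Q : ℤ) * R * m)) (a i * a j) e := by
    intro e f hef hsum
    have hef1 : e * f = m := by
      have h4 : (Q * R) * (e * f) = (Q * R) * m := by rw [← hef]; ring
      exact Nat.eq_of_mul_eq_mul_left (Nat.mul_pos hQ hR) h4
    refine ⟨Nat.mem_divisors.2 ⟨⟨f, hef1.symm⟩, hm.ne'⟩, ?_⟩
    have hef' : (e : ℤ) * f = m := by exact_mod_cast hef1
    have hsum' : (Q : ℤ) * e + R * f = 2 * r := by exact_mod_cast hsum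
    have h5 : (2 * (r : ℤ)) ^ 2 = ((Q : ℤ) * e + R * f) ^ 2 := by rw [hsum']
    rw [Rl, ← hef']
    linear_combination (e : ℤ) ^ 2 * (4 * hr + h5)
  rcases hs r s hr hs' with ⟨⟨e, he⟩, ⟨f, hf⟩⟩ | ⟨⟨e, he⟩, ⟨f, hf⟩⟩
  · obtain ⟨g1, g2⟩ := comp e f (by rw [← he, ← hf]; exact h3) (by rw [← he, ← hf]; omega)
    refine ⟨e, g1, g2, fun r' s' h4 h5 => ?_⟩
    obtain ⟨rfl, rfl⟩ := huniq r' s' h4 h5
    exact Or.inl ⟨he.symm, h2'⟩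
  · obtain ⟨g1, g2⟩ := comp e f (by rw [← he, ← hf, mul_comm]; exact h3) (by rw [← he, ← hf]; omega)
    refine ⟨e, g1, g2, fun r' s' h4 h5 => ?_⟩
    obtain ⟨rfl, rfl⟩ := huniq r' s' h4 h5
    exact Or.inr ⟨he.symm, h2'⟩

/-- two edges at one vertex -/
theorem two_edges {Q R m : ℕ} {ν a b₁ b₂ : ℤ} {e₁ e₂ : ℕ} (h₁ : Rl Q R m ν (a * b₁) e₁)
    (h₂ : Rl Q R m ν (a * b₂) e₂) :
    (e₁ : ℤ) ^ 2 * (e₂ : ℤ) ^ 2 * (4 * a * (b₁ - b₂)) = ((e₁ : ℤ) ^ 2 - (e₂ : ℤ) ^ 2) *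
      ((Q : ℤ) ^ 2 * ((e₁ : ℤ) ^ 2 * (e₂ : ℤ) ^ 2) - (m : ℤ) ^ 2 * (R : ℤ) ^ 2) := by
  unfold Rl at h₁ h₂
  linear_combination (e₂ : ℤ) ^ 2 * h₁ - (e₁ : ℤ) ^ 2 * h₂

theorem ne_edges {Q R m : ℕ} {ν a b₁ b₂ : ℤ} {e₁ e₂ : ℕ} (h₁ : Rl Q R m ν (a * b₁) e₁)
    (h₂ : Rl Q R m ν (a * b₂) e₂) (ha : a ≠ 0) (hb : b₁ ≠ b₂) (he₂ : 0 < e₂) :
    e₁ ≠ e₂ := by
  intro h
  have h3 := two_edges h₁ h₂
  rw [h, sub_self, zero_mul] at h3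
  have he : (e₂ : ℤ) ≠ 0 := by exact_mod_cast he₂.ne'
  have hb' : b₁ - b₂ ≠ 0 := sub_ne_zero.2 hb
  exact absurd h3 (by positivity)

/-- the number which confines the element of a star -/
def ZS (m : ℕ) (e₁ e₂ e₃ : ℕ) : ℤ :=
  ((e₁ : ℤ) ^ 2 - (e₂ : ℤ) ^ 2) * ((e₁ : ℤ) ^ 2 - (e₃ : ℤ) ^ 2) * ((e₂ : ℤ) ^ 2 - (e₃ : ℤ) ^ 2) *
    (e₁ : ℤ) ^ 2 * (m : ℤ) ^ 2

theorem star {Q R m : ℕ} (hco : Nat.Coprime Q R) {ν a b₁ b₂ b₃ : ℤ} {e₁ e₂ e₃ : ℕ}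
    (h₁ : Rl Q R m ν (a * b₁) e₁) (h₂ : Rl Q R m ν (a * b₂) e₂) (h₃ : Rl Q R m ν (a * b₃) e₃) :
    a ∣ ZS m e₁ e₂ e₃ := by
  have h12 := two_edges h₁ h₂
  have h13 := two_edges h₁ h₃
  set g12 : ℤ := (e₁ : ℤ) ^ 2 - (e₂ : ℤ) ^ 2 with hg12
  set g13 : ℤ := (e₁ : ℤ) ^ 2 - (e₃ : ℤ) ^ 2 with hg13
  set L12 : ℤ := (Q : ℤ) ^ 2 * ((e₁ : ℤ) ^ 2 * (e₂ : ℤ) ^ 2) - (m : ℤ) ^ 2 * (R : ℤ) ^ 2 with hL12
  set L13 : ℤ := (Q : ℤ) ^ 2 * ((e₁ : ℤ) ^ 2 * (e₃ : ℤ) ^ 2) - (m : ℤ) ^ 2 * (R : ℤ) ^ 2 with hL13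
  have d12 : a ∣ g12 * L12 := ⟨(e₁ : ℤ) ^ 2 * (e₂ : ℤ) ^ 2 * (4 * (b₁ - b₂)), by rw [← h12]; ring⟩
  have d13 : a ∣ g13 * L13 := ⟨(e₁ : ℤ) ^ 2 * (e₃ : ℤ) ^ 2 * (4 * (b₁ - b₃)), by rw [← h13]; ring⟩
  have dQ : a ∣ ZS m e₁ e₂ e₃ * (Q : ℤ) ^ 2 := by
    have e : ZS m e₁ e₂ e₃ * (Q : ℤ) ^ 2 = g12 * L12 * (g13 * (m : ℤ) ^ 2) - g13 * L13 * (g12 * (m : ℤ) ^ 2) := by
      rw [ZS, hL12, hL13]; ring
    rw [e]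
    exact dvd_sub (d12.mul_right _) (d13.mul_right _)
  have dR : a ∣ ZS m e₁ e₂ e₃ * (R : ℤ) ^ 2 := by
    have e : ZS m e₁ e₂ e₃ * (R : ℤ) ^ 2 = g12 * L12 * (g13 * (e₁ : ℤ) ^ 2 * (e₃ : ℤ) ^ 2) -
        g13 * L13 * (g12 * (e₁ : ℤ) ^ 2 * (e₂ : ℤ) ^ 2) := by
      rw [ZS, hL12, hL13]; ring
    rw [e]
    exact dvd_sub (d12.mul_right _) (d13.mul_right _)
  have hc : IsCoprime ((Q : ℤ) ^ 2) ((R : ℤ) ^ 2) :=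
    IsCoprime.pow (Nat.isCoprime_iff_coprime.2 hco)
  obtain ⟨x, y, hxy⟩ := hc
  have e : ZS m e₁ e₂ e₃ = ZS m e₁ e₂ e₃ * (Q : ℤ) ^ 2 * x + ZS m e₁ e₂ e₃ * (R : ℤ) ^ 2 * y := by
    linear_combination -(ZS m e₁ e₂ e₃) * hxy
  rw [e]
  exact dvd_add (dQ.mul_right _) (dR.mul_right _)

theorem sq_sub_abs {m e f : ℕ} (he : e ≤ m) (hf : f ≤ m) :
    |(e : ℤ) ^ 2 - (f : ℤ) ^ 2| ≤ (m : ℤ) ^ 2 := by
  have h1 : (e : ℤ) ^ 2 ≤ (m : ℤ) ^ 2 := pow_le_pow_left₀ (by positivity) (by exact_mod_cast he) 2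
  have h2 : (f : ℤ) ^ 2 ≤ (m : ℤ) ^ 2 := pow_le_pow_left₀ (by positivity) (by exact_mod_cast hf) 2
  have h3 : (0 : ℤ) ≤ (e : ℤ) ^ 2 := by positivity
  have h4 : (0 : ℤ) ≤ (f : ℤ) ^ 2 := by positivity
  exact abs_le.2 ⟨by linarith, by linarith⟩

theorem ZS_le {m e₁ e₂ e₃ : ℕ} (h₁ : e₁ ≤ m) (h₂ : e₂ ≤ m) (h₃ : e₃ ≤ m) :
    (ZS m e₁ e₂ e₃).natAbs ≤ m ^ 10 := by
  have h4 : (e₁ : ℤ) ^ 2 ≤ (m : ℤ) ^ 2 := pow_le_pow_left₀ (by positivity) (by exact_mod_cast h₁) 2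
  have h5 : |ZS m e₁ e₂ e₃| ≤ (m : ℤ) ^ 2 * (m : ℤ) ^ 2 * (m : ℤ) ^ 2 * (m : ℤ) ^ 2 * (m : ℤ) ^ 2 := by
    rw [ZS, abs_mul, abs_mul, abs_mul, abs_mul, abs_of_nonneg (by positivity : (0 : ℤ) ≤ (e₁ : ℤ) ^ 2),
      abs_of_nonneg (by positivity : (0 : ℤ) ≤ (m : ℤ) ^ 2)]
    gcongr
    · exact sq_sub_abs h₁ h₂
    · exact sq_sub_abs h₁ h₃
    · exact sq_sub_abs h₂ h₃
  have h6 : ((ZS m e₁ e₂ e₃).natAbs : ℤ) ≤ ((m ^ 10 : ℕ) : ℤ) := by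
    rw [Int.natCast_natAbs]
    push_cast
    calc |ZS m e₁ e₂ e₃| ≤ _ := h5
      _ = (m : ℤ) ^ 10 := by ring
  exact_mod_cast h6

theorem sq_sub_ne {e f : ℕ} (h : e ≠ f) : (e : ℤ) ^ 2 - (f : ℤ) ^ 2 ≠ 0 := by
  intro h1
  have h2 : e ^ 2 = f ^ 2 := by
    have h3 : (e : ℤ) ^ 2 = (f : ℤ) ^ 2 := by linarith
    exact_mod_cast h3
  exact h (Nat.pow_left_injective (n := 2) (by norm_num) h2)

theorem ZS_ne {m e₁ e₂ e₃ : ℕ} (hm : 0 < m) (h₁ : 0 < e₁) (h12 : e₁ ≠ e₂) (h13 : e₁ ≠ e₃)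
    (h23 : e₂ ≠ e₃) : ZS m e₁ e₂ e₃ ≠ 0 := by
  have hm0 : (m : ℤ) ≠ 0 := by exact_mod_cast hm.ne'
  have he0 : (e₁ : ℤ) ≠ 0 := by exact_mod_cast h₁.ne'
  rw [ZS]
  exact mul_ne_zero (mul_ne_zero (mul_ne_zero (mul_ne_zero (sq_sub_ne h12) (sq_sub_ne h13))
    (sq_sub_ne h23)) (pow_ne_zero 2 he0)) (pow_ne_zero 2 hm0)

/-- the four edges `0 1`, `0 2`, `3 1`, `3 2` and the elements `a`, `c` determine `Q : R` -/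
theorem ratio {Q R Q' R' m : ℕ} (hR : 0 < R) {ν ν' a c b₁ b₂ b₁' b₂' : ℤ} {e₁ e₂ f₁ f₂ : ℕ}
    (h₁ : Rl Q R m ν (a * b₁) e₁) (h₂ : Rl Q R m ν (a * b₂) e₂)
    (k₁ : Rl Q R m ν (c * b₁) f₁) (k₂ : Rl Q R m ν (c * b₂) f₂)
    (h₁' : Rl Q' R' m ν' (a * b₁') e₁) (h₂' : Rl Q' R' m ν' (a * b₂') e₂)
    (k₁' : Rl Q' R' m ν' (c * b₁') f₁) (k₂' : Rl Q' R' m ν' (c * b₂') f₂)
    (hm : 0 < m) (hc : c ≠ 0) (he : e₁ ≠ e₂) (pe₁ : 0 < e₁) (pe₂ : 0 < e₂) (pf₁ : 0 < f₁)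
    (pf₂ : 0 < f₂) (hnd : e₁ * e₂ ≠ f₁ * f₂) : Q * R' = Q' * R := by
  set g : ℤ := (e₁ : ℤ) ^ 2 - (e₂ : ℤ) ^ 2 with hg
  set h : ℤ := (f₁ : ℤ) ^ 2 - (f₂ : ℤ) ^ 2 with hh
  set U : ℤ := (e₁ : ℤ) ^ 2 * (e₂ : ℤ) ^ 2 with hU
  set W : ℤ := (f₁ : ℤ) ^ 2 * (f₂ : ℤ) ^ 2 with hW
  set P : ℤ := U * W * (c * g - a * h) with hP
  set S : ℤ := (m : ℤ) ^ 2 * (c * W * g - a * U * h) with hS
  have key : ∀ {Q R : ℕ} {ν b₁ b₂ : ℤ}, Rl Q R m ν (a * b₁) e₁ → Rl Q R m ν (a * b₂) e₂ →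
      Rl Q R m ν (c * b₁) f₁ → Rl Q R m ν (c * b₂) f₂ → P * (Q : ℤ) ^ 2 = S * (R : ℤ) ^ 2 := by
    intro Q R ν b₁ b₂ h₁ h₂ k₁ k₂
    have t1 := two_edges h₁ h₂
    have t2 := two_edges k₁ k₂
    rw [hP, hS]
    linear_combination (-c * W) * t1 + (a * U) * t2
  have e1 := key h₁ h₂ k₁ k₂
  have e2 := key h₁' h₂' k₁' k₂'
  have hg0 : g ≠ 0 := sq_sub_ne he
  have hUW : U ≠ W := by
    intro h3
    have h4 : (e₁ * e₂) ^ 2 = (f₁ * f₂) ^ 2 := by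
      have : ((e₁ : ℤ) * e₂) ^ 2 = ((f₁ : ℤ) * f₂) ^ 2 := by
        rw [mul_pow, mul_pow]; exact h3
      exact_mod_cast this
    exact hnd (Nat.pow_left_injective (n := 2) (by norm_num) h4)
  have hR0 : (R : ℤ) ^ 2 ≠ 0 := pow_ne_zero 2 (by exact_mod_cast hR.ne')
  have hm0 : (m : ℤ) ^ 2 ≠ 0 := pow_ne_zero 2 (by exact_mod_cast hm.ne')
  have hP0 : P ≠ 0 := by
    intro h3
    have hS0 : S = 0 := by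
      rw [h3, zero_mul] at e1
      rcases mul_eq_zero.1 e1.symm with h4 | h4
      · exact h4
      · exact absurd h4 hR0
    have hS1 : c * W * g - a * U * h = 0 := (mul_eq_zero.1 hS0).resolve_left hm0
    have hU0 : U ≠ 0 := by positivity
    have hW0 : W ≠ 0 := by positivity
    rcases mul_eq_zero.1 h3 with h4 | h4
    · exact (mul_ne_zero hU0 hW0) h4
    · have h5 : c * g * (W - U) = 0 := by linear_combination hS1 - U * h4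
      rcases mul_eq_zero.1 h5 with h6 | h6
      · exact (mul_ne_zero hc hg0) h6
      · exact hUW (by linarith)
  have h5 : P * ((Q : ℤ) ^ 2 * (R' : ℤ) ^ 2) = P * ((Q' : ℤ) ^ 2 * (R : ℤ) ^ 2) := by
    linear_combination (R' : ℤ) ^ 2 * e1 - (R : ℤ) ^ 2 * e2
  have h6 : (Q : ℤ) ^ 2 * (R' : ℤ) ^ 2 = (Q' : ℤ) ^ 2 * (R : ℤ) ^ 2 := mul_left_cancel₀ hP0 h5
  have h7 : (Q * R') ^ 2 = (Q' * R) ^ 2 := by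
    have : ((Q : ℤ) * R') ^ 2 = ((Q' : ℤ) * R) ^ 2 := by rw [mul_pow, mul_pow]; exact h6
    exact_mod_cast this
  exact Nat.pow_left_injective (n := 2) (by norm_num) h7

end Pool.Agent.TWR
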